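import Pool.Agent.helper69.DH.SpecR

/-!
# Project d2 (MP_5823cb_al), row rDN2: density of the cells which satisfy the enlarged rule 2 (helper64)
-/

set_option autoImplicit false

open Filter Topology MeasureTheory
open scoped commutatorElement

namespace Pool.Agent.helper90.DH

open Pool.Agent.helper64.D2

theorem rDN2 (hCNT : rCNT_stmt) : rDN2_stmt := by
  intro P S hR s H K hs hsS hI κ Q hQ
  obtain ⟨⟨hq, hell, hls, h216, hs0, h34, hd1, -⟩, -, -, -⟩ := hR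
  obtain ⟨hFH, -, -, -, hDs⟩ := hI
  have hr1 : rrh 1 = 3 * 2 ^ 30 + 8 := by
    unfold rrh
    norm_num
  have hell1 : P.ell ≤ P.S1 := by omega
  have hr0 : 0 ≤ rrh 1 := by
    rw [hr1]
    positivity
  have h34' : (2 : ℝ) ^ 34 ≤ 2 ^ (P.S1 - P.ell) := pow_le_pow_right₀ (by norm_num) (by omega)
  have hr2 : rrh 1 + 1 ≤ 2 ^ (P.S1 - P.ell) := by
    rw [hr1]
    refine le_trans ?_ h34'
    norm_num
  have hC := hCNT P.ell P.S1 s H (rrh 1) κ Q hell1 hs hr0 hr2 hFH (fun m hm => (hQ m hm).1)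
  have hlow : (2 : ℝ) ^ 38 * Q.card ≤ ∑ m ∈ Q, ((rAc H (rrh 1) s (rlp s m)).card : ℝ) := by
    have h1 : ∑ m ∈ Q, (2 : ℝ) ^ 38 ≤ ∑ m ∈ Q, ((rAc H (rrh 1) s (rlp s m)).card : ℝ) := by
      refine Finset.sum_le_sum ?_
      intro m hm
      have h2 : 2 ^ 38 ≤ (rAc H (rrh 1) s (rlp s m)).card := (hQ m hm).2
      exact_mod_cast h2
    rw [Finset.sum_const, nsmul_eq_mul] at h1
    linarith
  have hX : (0 : ℝ) < P.d1 * 2 ^ (s - P.ell) := by positivity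
  have d1 := (hDs (κ - 1)).1
  have d2 := (hDs κ).1
  have d3 := (hDs (κ + 1)).1
  have hup : (2 * rrh 1 + 1) * ((rcw P.ell s (κ - 1) (rRZ H s) : ℝ) + rcw P.ell s κ (rRZ H s) + rcw P.ell s (κ + 1) (rRZ H s)) ≤
      (2 * rrh 1 + 1) * (6 * (P.d1 * 2 ^ (s - P.ell))) := by
    refine mul_le_mul_of_nonneg_left ?_ (by linarith)
    linarith
  have hfin : (2 : ℝ) ^ 38 * Q.card ≤ (2 * rrh 1 + 1) * (6 * (P.d1 * 2 ^ (s - P.ell))) := hlow.trans (hC.trans hup)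
  have hnum : (2 * rrh 1 + 1) * (6 * (P.d1 * 2 ^ (s - P.ell))) ≤ (2 : ℝ) ^ 38 * (P.d1 / 4 * 2 ^ (s - P.ell)) := by
    rw [hr1]
    have e1 : (2 * (3 * 2 ^ 30 + 8 : ℝ) + 1) * (6 * (P.d1 * 2 ^ (s - P.ell))) = (36 * 2 ^ 30 + 102) * (P.d1 * 2 ^ (s - P.ell)) := by ring
    have e2 : (2 : ℝ) ^ 38 * (P.d1 / 4 * 2 ^ (s - P.ell)) = 2 ^ 36 * (P.d1 * 2 ^ (s - P.ell)) := by ring
    rw [e1, e2]
    refine mul_le_mul_of_nonneg_right ?_ hX.le
    norm_num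
  have h38 : (0 : ℝ) < 2 ^ 38 := by positivity
  exact le_of_mul_le_mul_left (hfin.trans hnum) h38

end Pool.Agent.helper90.DH
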