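import Pool.Agent.helper69.DH.SpecR2

/-!
# Project d2 (MP_5823cb_al), row rETA: the openness at the level `s` (helper64)
-/

set_option autoImplicit false

open Filter Topology MeasureTheory
open scoped commutatorElement

namespace Pool.Agent.helper90.DH

open Pool.Agent.helper64.D2

theorem rETA_mem (H : ℕ → Finset ℤ) (s t : ℕ) (z : ℝ) :
    t ∈ rAc H (3 * 2 ^ 30 - 8) s z ↔ t ≤ s ∧ ∃ n ∈ H t, |2 ^ t * z - (n : ℝ)| ≤ 3 * 2 ^ 30 - 8 := by
  unfold rAc
  rw [Finset.mem_filter, Finset.mem_range, Nat.lt_succ_iff]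

theorem rETA_rg (a d : ℝ) : |rg (a - d) - rg a + 2 * max 0 a * d| ≤ d ^ 2 := by
  unfold rg
  rcases le_total 0 a with h1 | h1 <;> rcases le_total 0 (a - d) with h2 | h2
  · rw [max_eq_right h1, max_eq_right h2, abs_le]
    constructor <;> nlinarith [sq_nonneg d]
  · rw [max_eq_right h1, max_eq_left h2, abs_le]
    constructor <;> nlinarith [sq_nonneg d, sq_nonneg (a - d), mul_nonneg h1 (show (0 : ℝ) ≤ d - a by linarith)]
  · rw [max_eq_left h1, max_eq_right h2, abs_le]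
    constructor <;> nlinarith [sq_nonneg d, sq_nonneg (a - d), mul_nonneg h2 (show (0 : ℝ) ≤ -a by linarith), sq_nonneg a]
  · rw [max_eq_left h1, max_eq_left h2, abs_le]
    constructor <;> nlinarith [sq_nonneg d]

theorem rETA_rg2 (a d : ℝ) (ha : a ≤ 1) (hd : a - d ≤ 1) : |rg (a - d) - rg a| ≤ 2 * |d| := by
  unfold rg
  have hX : |max 0 (a - d) - max 0 a| ≤ |d| := by
    have h := abs_max_sub_max_le_abs (a - d) a 0
    rw [max_comm 0 (a - d), max_comm 0 a]
    refine h.trans (le_of_eq ?_)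
    rw [show a - d - a = -d by ring, abs_neg]
  have h1 : 0 ≤ max 0 (a - d) := le_max_left _ _
  have h2 : 0 ≤ max 0 a := le_max_left _ _
  have h3 : max 0 (a - d) ≤ 1 := max_le zero_le_one hd
  have h4 : max 0 a ≤ 1 := max_le zero_le_one ha
  have h5 : (max 0 (a - d)) ^ 2 - (max 0 a) ^ 2 = (max 0 (a - d) - max 0 a) * (max 0 (a - d) + max 0 a) := by ring
  rw [h5, abs_mul, abs_of_nonneg (add_nonneg h1 h2)]
  calc |max 0 (a - d) - max 0 a| * (max 0 (a - d) + max 0 a) ≤ |d| * 2 :=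
        mul_le_mul hX (by linarith) (add_nonneg h1 h2) (abs_nonneg _)
    _ = 2 * |d| := by ring

theorem rETA_rg01 (a : ℝ) (ha : a ≤ 1) : 0 ≤ rg a ∧ rg a ≤ 1 := by
  unfold rg
  have h2 : 0 ≤ max 0 a := le_max_left _ _
  have h4 : max 0 a ≤ 1 := max_le zero_le_one ha
  exact ⟨by positivity, pow_le_one₀ h2 h4⟩

theorem rETA_rgm (a b : ℝ) (hab : a ≤ b) : rg a ≤ rg b := by
  unfold rg
  exact pow_le_pow_left₀ (le_max_left _ _) (max_le_max le_rfl hab) 2

theorem rETA (hBPH : rBPH_stmt) : rETA_stmt := by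
  classical
  intro H s z
  have hph0 : ∀ (t : ℕ) (y : ℝ), 0 ≤ rph (H t) t y := fun t y => (hBPH (H t) t y).1
  have huu0 : ∀ (r : ℕ) (y : ℝ), 0 ≤ ruu H r y := by
    intro r y
    unfold ruu
    exact Finset.sum_nonneg (fun t _ => hph0 t y)
  have hsg0 : 0 ≤ rsg H s z := by
    unfold rsg
    exact Finset.sum_nonneg (fun t _ => by positivity)
  have hs2 : (0 : ℝ) < 2 ^ s := by positivity
  -- small displacement
  have hsmall : ∀ p : ℝ, |p - z| ≤ 5 / 4 / 2 ^ s → ∀ t ≤ s, |2 ^ t * (p - z)| ≤ 5 / 4 * (2 ^ t / 2 ^ s) := by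
    intro p hp t _
    have h2t : (0 : ℝ) < 2 ^ t := by positivity
    rw [abs_mul, abs_of_pos h2t]
    calc 2 ^ t * |p - z| ≤ 2 ^ t * (5 / 4 / 2 ^ s) := mul_le_mul_of_nonneg_left hp h2t.le
      _ = 5 / 4 * (2 ^ t / 2 ^ s) := by ring
  have hle1 : ∀ t ≤ s, (2 : ℝ) ^ t / 2 ^ s ≤ 1 := by
    intro t ht
    rw [div_le_one hs2]
    exact pow_le_pow_right₀ (by norm_num) ht
  have hsmall2 : ∀ p : ℝ, |p - z| ≤ 5 / 4 / 2 ^ s → ∀ t ≤ s, |2 ^ t * (p - z)| ≤ 5 / 4 := by
    intro p hp t ht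
    have h1 := hsmall p hp t ht
    have h2 := hle1 t ht
    linarith
  -- vanishing off the active levels
  have hvan : ∀ p : ℝ, |p - z| ≤ 5 / 4 / 2 ^ s → ∀ t ≤ s, t ∉ rAc H (3 * 2 ^ 30 - 8) s z → rph (H t) t p = 0 := by
    intro p hp t ht hnt
    have h1 : ∀ n ∈ H t, 3 * 2 ^ 30 - 8 < |2 ^ t * z - (n : ℝ)| := by
      intro n hn
      by_contra hcon
      rw [not_lt] at hcon
      exact hnt ((rETA_mem H s t z).2 ⟨ht, n, hn, hcon⟩)
    have h2 := (hBPH (H t) t z).2.2.1 h1 (p - z) (by linarith [hsmall2 p hp t ht])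
    have h3 : z + (p - z) = p := by ring
    rw [h3] at h2
    exact h2
  have hzz : |z - z| ≤ 5 / 4 / 2 ^ s := by
    rw [sub_self, abs_zero]
    positivity
  refine ⟨⟨?_, ?_, ?_, hsg0⟩, ?_, ?_, ?_⟩
  · exact (rETA_rg01 _ (by linarith [huu0 s z])).1
  · exact (rETA_rg01 _ (by linarith [huu0 s z])).2
  · refine rETA_rgm _ _ ?_
    have h1 : ruu H (s + 1) z = ruu H s z + rph (H (s + 1)) (s + 1) z := by
      unfold ruu
      rw [Finset.sum_range_succ]
    linarith [hph0 (s + 1) z]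
  · intro hemp p hp
    have h1 : ruu H s p = 0 := by
      unfold ruu
      refine Finset.sum_eq_zero ?_
      intro t ht
      refine hvan p hp t (Nat.lt_succ_iff.1 (Finset.mem_range.1 ht)) ?_
      rw [hemp]
      exact Finset.notMem_empty t
    unfold reta
    rw [h1]
    unfold rg
    norm_num
  · rintro ⟨t, ht, n, hn, hzn⟩ p hp
    have h1 : |2 ^ t * p - (n : ℝ)| ≤ 4 := by
      have h2 := hsmall2 p hp t ht
      have h3 : 2 ^ t * p - (n : ℝ) = (2 ^ t * z - (n : ℝ)) + 2 ^ t * (p - z) := by ring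
      rw [h3]
      refine (abs_add_le _ _).trans ?_
      linarith
    have h4 : 1 ≤ rph (H t) t p := (hBPH (H t) t p).2.1 ⟨n, hn, h1⟩
    have h5 : rph (H t) t p ≤ ruu H s p := by
      unfold ruu
      exact Finset.single_le_sum (f := fun t => rph (H t) t p) (fun t _ => hph0 t p) (Finset.mem_range.2 (Nat.lt_succ_of_le ht))
    unfold reta
    unfold rg
    rw [max_eq_left (by linarith)]
    norm_num
  · -- expansion
    have hch : ∀ t : ℕ, ∃ lam : ℝ, |lam| ≤ 8 * 2 ^ t / 2 ^ 30 ∧ ∀ h : ℝ, |2 ^ t * h| ≤ 2 →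
        |rph (H t) t (z + h) - rph (H t) t z - lam * h| ≤ 20 * (2 ^ t * h / 2 ^ 30) ^ 2 ∧
        |rph (H t) t (z + h) - rph (H t) t z| ≤ 10 * |2 ^ t * h| / 2 ^ 30 := fun t => (hBPH (H t) t z).2.2.2
    choose lam hlam hexp using hch
    have hsub : rAc H (3 * 2 ^ 30 - 8) s z ⊆ Finset.range (s + 1) := by
      intro t ht
      exact Finset.mem_range.2 (Nat.lt_succ_of_le ((rETA_mem H s t z).1 ht).1)
    -- sum of the slopes
    have hLam : |∑ t ∈ rAc H (3 * 2 ^ 30 - 8) s z, lam t| ≤ 8 / 2 ^ 30 * rsg H s z * 2 ^ s := by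
      calc |∑ t ∈ rAc H (3 * 2 ^ 30 - 8) s z, lam t| ≤ ∑ t ∈ rAc H (3 * 2 ^ 30 - 8) s z, |lam t| := Finset.abs_sum_le_sum_abs _ _
        _ ≤ ∑ t ∈ rAc H (3 * 2 ^ 30 - 8) s z, 8 / 2 ^ 30 * ((2 : ℝ) ^ t / 2 ^ s) * 2 ^ s := by
            refine Finset.sum_le_sum ?_
            intro t _
            refine (hlam t).trans (le_of_eq ?_)
            field_simp
        _ = 8 / 2 ^ 30 * rsg H s z * 2 ^ s := by
            unfold rsg
            rw [Finset.mul_sum, Finset.sum_mul]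
    have hrsg2 : rsg H s z ≤ 2 := by
      have h1 : rsg H s z ≤ ∑ t ∈ Finset.range (s + 1), (2 : ℝ) ^ t / 2 ^ s := by
        unfold rsg
        exact Finset.sum_le_sum_of_subset_of_nonneg hsub (fun t _ _ => by positivity)
      have h2 : ∑ t ∈ Finset.range (s + 1), (2 : ℝ) ^ t / 2 ^ s = (2 ^ (s + 1) - 1) / 2 ^ s := by
        rw [← Finset.sum_div, geom_sum_eq (by norm_num) (s + 1)]
        norm_num
      rw [h2] at h1
      refine h1.trans ?_
      rw [div_le_iff₀ hs2, pow_succ]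
      linarith
    have hmax0 : 0 ≤ max 0 (1 - ruu H s z) := le_max_left _ _
    have hmax1 : max 0 (1 - ruu H s z) ≤ 1 := max_le zero_le_one (by linarith [huu0 s z])
    refine ⟨-(2 * max 0 (1 - ruu H s z) * ∑ t ∈ rAc H (3 * 2 ^ 30 - 8) s z, lam t), ?_, ?_⟩
    · rw [div_le_iff₀ hs2, abs_neg, abs_mul, abs_mul, abs_of_nonneg hmax0, abs_of_pos (show (0 : ℝ) < 2 by norm_num)]
      calc 2 * max 0 (1 - ruu H s z) * |∑ t ∈ rAc H (3 * 2 ^ 30 - 8) s z, lam t|
          ≤ 2 * 1 * (8 / 2 ^ 30 * rsg H s z * 2 ^ s) := by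
            refine mul_le_mul ?_ hLam (abs_nonneg _) (by norm_num)
            linarith
        _ = 16 / 2 ^ 30 * rsg H s z * 2 ^ s := by ring
    · intro p hp
      -- the difference
      have hsum : ∀ y : ℝ, |y - z| ≤ 5 / 4 / 2 ^ s → ruu H s y = ∑ t ∈ rAc H (3 * 2 ^ 30 - 8) s z, rph (H t) t y := by
        intro y hy
        unfold ruu
        symm
        refine Finset.sum_subset hsub ?_
        intro t ht hnt
        exact hvan y hy t (Nat.lt_succ_iff.1 (Finset.mem_range.1 ht)) hnt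
      have hpz : z + (p - z) = p := by ring
      have hd : ruu H s p - ruu H s z = ∑ t ∈ rAc H (3 * 2 ^ 30 - 8) s z, (rph (H t) t (z + (p - z)) - rph (H t) t z) := by
        rw [hsum p hp, hsum z hzz, ← Finset.sum_sub_distrib, hpz]
      have habs : |ruu H s p - ruu H s z| ≤ 25 / 2 / 2 ^ 30 * rsg H s z := by
        rw [hd]
        calc |∑ t ∈ rAc H (3 * 2 ^ 30 - 8) s z, (rph (H t) t (z + (p - z)) - rph (H t) t z)|
            ≤ ∑ t ∈ rAc H (3 * 2 ^ 30 - 8) s z, |rph (H t) t (z + (p - z)) - rph (H t) t z| := Finset.abs_sum_le_sum_abs _ _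
          _ ≤ ∑ t ∈ rAc H (3 * 2 ^ 30 - 8) s z, 25 / 2 / 2 ^ 30 * ((2 : ℝ) ^ t / 2 ^ s) := by
              refine Finset.sum_le_sum ?_
              intro t ht
              have hts := ((rETA_mem H s t z).1 ht).1
              have h1 := (hexp t (p - z) (by linarith [hsmall2 p hp t hts])).2
              have h2 := hsmall p hp t hts
              refine h1.trans ?_
              rw [div_le_iff₀ (by positivity)]
              calc 10 * |2 ^ t * (p - z)| ≤ 10 * (5 / 4 * (2 ^ t / 2 ^ s)) := by linarith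
                _ = 25 / 2 / 2 ^ 30 * ((2 : ℝ) ^ t / 2 ^ s) * 2 ^ 30 := by ring
          _ = 25 / 2 / 2 ^ 30 * rsg H s z := by
              unfold rsg
              rw [Finset.mul_sum]
      have he : |(ruu H s p - ruu H s z) - (∑ t ∈ rAc H (3 * 2 ^ 30 - 8) s z, lam t) * (p - z)| ≤ 125 / 4 / 2 ^ 60 * rsg H s z := by
        rw [hd, Finset.sum_mul, ← Finset.sum_sub_distrib]
        calc |∑ t ∈ rAc H (3 * 2 ^ 30 - 8) s z, (rph (H t) t (z + (p - z)) - rph (H t) t z - lam t * (p - z))|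
            ≤ ∑ t ∈ rAc H (3 * 2 ^ 30 - 8) s z, |rph (H t) t (z + (p - z)) - rph (H t) t z - lam t * (p - z)| := Finset.abs_sum_le_sum_abs _ _
          _ ≤ ∑ t ∈ rAc H (3 * 2 ^ 30 - 8) s z, 125 / 4 / 2 ^ 60 * ((2 : ℝ) ^ t / 2 ^ s) := by
              refine Finset.sum_le_sum ?_
              intro t ht
              have hts := ((rETA_mem H s t z).1 ht).1
              have h1 := (hexp t (p - z) (by linarith [hsmall2 p hp t hts])).1
              have h2 := hsmall p hp t hts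
              have h3 := hle1 t hts
              have h4 : (0 : ℝ) ≤ 2 ^ t / 2 ^ s := by positivity
              refine h1.trans ?_
              have h5 : (2 ^ t * (p - z)) ^ 2 ≤ 25 / 16 * (2 ^ t / 2 ^ s) := by
                rw [← sq_abs]
                calc |2 ^ t * (p - z)| ^ 2 ≤ (5 / 4 * (2 ^ t / 2 ^ s)) ^ 2 := pow_le_pow_left₀ (abs_nonneg _) h2 2
                  _ = 25 / 16 * ((2 ^ t / 2 ^ s) * (2 ^ t / 2 ^ s)) := by ring
                  _ ≤ 25 / 16 * (1 * (2 ^ t / 2 ^ s)) := by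
                      refine mul_le_mul_of_nonneg_left ?_ (by norm_num)
                      exact mul_le_mul_of_nonneg_right h3 h4
                  _ = 25 / 16 * (2 ^ t / 2 ^ s) := by ring
              calc 20 * (2 ^ t * (p - z) / 2 ^ 30) ^ 2 = 20 / 2 ^ 60 * (2 ^ t * (p - z)) ^ 2 := by ring
                _ ≤ 20 / 2 ^ 60 * (25 / 16 * (2 ^ t / 2 ^ s)) := mul_le_mul_of_nonneg_left h5 (by positivity)
                _ = 125 / 4 / 2 ^ 60 * ((2 : ℝ) ^ t / 2 ^ s) := by ring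
          _ = 125 / 4 / 2 ^ 60 * rsg H s z := by
              unfold rsg
              rw [Finset.mul_sum]
      have hdd : (ruu H s p - ruu H s z) ^ 2 ≤ 625 / 2 / 2 ^ 60 * rsg H s z := by
        rw [← sq_abs]
        calc |ruu H s p - ruu H s z| ^ 2 ≤ (25 / 2 / 2 ^ 30 * rsg H s z) ^ 2 := pow_le_pow_left₀ (abs_nonneg _) habs 2
          _ = 625 / 4 / 2 ^ 60 * (rsg H s z * rsg H s z) := by ring
          _ ≤ 625 / 4 / 2 ^ 60 * (2 * rsg H s z) := by
              refine mul_le_mul_of_nonneg_left ?_ (by positivity)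
              exact mul_le_mul_of_nonneg_right hrsg2 hsg0
          _ = 625 / 2 / 2 ^ 60 * rsg H s z := by ring
      have hap : 1 - ruu H s p = (1 - ruu H s z) - (ruu H s p - ruu H s z) := by ring
      constructor
      · have h1 := rETA_rg (1 - ruu H s z) (ruu H s p - ruu H s z)
        rw [← hap] at h1
        have h2 : reta H s p - reta H s z - -(2 * max 0 (1 - ruu H s z) * ∑ t ∈ rAc H (3 * 2 ^ 30 - 8) s z, lam t) * (p - z) =
            (rg (1 - ruu H s p) - rg (1 - ruu H s z) + 2 * max 0 (1 - ruu H s z) * (ruu H s p - ruu H s z)) -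
            2 * max 0 (1 - ruu H s z) * ((ruu H s p - ruu H s z) - (∑ t ∈ rAc H (3 * 2 ^ 30 - 8) s z, lam t) * (p - z)) := by
          unfold reta
          ring
        rw [h2]
        refine (abs_sub _ _).trans ?_
        have h3 : |2 * max 0 (1 - ruu H s z) * ((ruu H s p - ruu H s z) - (∑ t ∈ rAc H (3 * 2 ^ 30 - 8) s z, lam t) * (p - z))| ≤
            2 * 1 * (125 / 4 / 2 ^ 60 * rsg H s z) := by
          rw [abs_mul, abs_mul, abs_of_nonneg hmax0, abs_of_pos (show (0 : ℝ) < 2 by norm_num)]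
          refine mul_le_mul ?_ he (abs_nonneg _) (by norm_num)
          linarith
        calc |rg (1 - ruu H s p) - rg (1 - ruu H s z) + 2 * max 0 (1 - ruu H s z) * (ruu H s p - ruu H s z)| +
              |2 * max 0 (1 - ruu H s z) * ((ruu H s p - ruu H s z) - (∑ t ∈ rAc H (3 * 2 ^ 30 - 8) s z, lam t) * (p - z))|
            ≤ 625 / 2 / 2 ^ 60 * rsg H s z + 2 * 1 * (125 / 4 / 2 ^ 60 * rsg H s z) := add_le_add (h1.trans hdd) h3
          _ = 375 / 2 ^ 60 * rsg H s z := by ring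
      · have h1 := rETA_rg2 (1 - ruu H s z) (ruu H s p - ruu H s z) (by linarith [huu0 s z]) (by linarith [huu0 s p])
        rw [← hap] at h1
        unfold reta
        refine h1.trans ?_
        calc 2 * |ruu H s p - ruu H s z| ≤ 2 * (25 / 2 / 2 ^ 30 * rsg H s z) := by linarith
          _ = 25 / 2 ^ 30 * rsg H s z := by ring

end Pool.Agent.helper90.DH
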